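import Mathlib
import Pool.Agent.Helper18.SG.Goals

/-! The game of project SG with `2 M + 1 ≤ R` instead of `2 M + 2 ≤ R`: statements (see
`Pool/Agent/Helper18/SG/Goals.lean` for the proofs). -/

set_option autoImplicit false

namespace Pool.Agent.Helper18.SGW

open Finset
open Pool.Agent.Helper18.SG (nv Lo ns nz GoalG1 GoalG9)

/-- the data of the game: `N` points with multiplicities `ν`, rows of lengths `ℓ y`, `y < R` -/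
structure Hyp (M S R N : ℕ) (ν ℓ : ℕ → ℕ) : Prop where
  M1 : 1 ≤ M
  R1 : 2 * M + 1 ≤ R
  anti : Antitone ν
  ν1 : ∀ c, 1 ≤ ν c
  νM : ∀ c, ν c ≤ M
  h0 : ∀ y, y + 1 < R → M * ℓ y + 3 * M ^ 2 ≤ M * ℓ (y + 1) + ℓ y
  h1 : ∀ y, y + 1 < R → R ≤ y + 2 * M + 1 → M * ℓ y + (26 + S) * M ^ 2 ≤ M * ℓ (y + 1) + ℓ y
  h2 : ∀ y, y + 2 < R → R ≤ y + M + 1 → ℓ y + ℓ (y + 2) ≤ 2 * ℓ (y + 1) + S
  tot : ∑ c ∈ range N, (ν c + 1).choose 2 = ∑ y ∈ range R, ℓ y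

/-- a state of the game: the points `c < a` are started in the rows `≤ y`, the others are not
started (`s c = R - 1`, `z c = R`); the rows before `y` are full -/
structure Ok (R N : ℕ) (ν ℓ : ℕ → ℕ) (y a : ℕ) (s z : ℕ → ℕ) : Prop where
  aN : a ≤ N
  un : ∀ c, a ≤ c → s c = R - 1 ∧ z c = R
  st : ∀ c < a, s c ≤ y ∧ s c < z c ∧ z c ≤ R ∧ (s c = 0 → z c = R)
  ex : ∀ t < y, Lo R N ν s z t = ℓ t
  le : Lo R N ν s z y ≤ ℓ y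

/-- the invariant: the rest `ℓ y - Lo y` of the row `y` can be taken by the next two points, and
there are at most two points with a threshold in every row -/
structure Inv (M S R N : ℕ) (ν ℓ : ℕ → ℕ) (y a : ℕ) (s z : ℕ → ℕ) : Prop
    extends Ok R N ν ℓ y a s z where
  D2 : ℓ y + 2 ≤ Lo R N ν s z y + min (ν a) (R - 1 - y) + min (ν (a + 1)) (R - 1 - y)
  D1 : 1 ≤ y → Lo R N ν s z y + min (ν a) (R - 1 - y) ≤ ℓ y + 1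
  mono : ∀ c c', c ≤ c' → c' < a → s c ≤ s c'
  bat : ∀ t, 1 ≤ t → t ≤ y → ∃ c < a, s c = t
  hz : ∀ c < a, z c ≠ R → z c ≤ s c + min (ν c) (R - s c) ∧
    (2 ≤ s c → min (ν c) (R - s c) ≤ 2 * (s c + min (ν c) (R - s c) - z c) + 2)
  two : ∀ t, ((range a).filter (fun c => s c = t ∧ z c ≠ R)).card ≤ 2
  cnt : ∀ t, 1 ≤ t → t ≤ y → R ≤ t + 2 * M → (∀ c < a, s c = t → ν c + t + 1 < R) →
    24 + S ≤ ((range a).filter (fun c => s c = t)).card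

def GoalG2 : Prop :=
  ∀ (M S R N : ℕ) (ν ℓ : ℕ → ℕ) (y a : ℕ) (s z : ℕ → ℕ), GoalG1 → Hyp M S R N ν ℓ →
    Ok R N ν ℓ y a s z → y + 1 < R → a + 3 ≤ N

def GoalG4 : Prop :=
  ∀ (M S R N : ℕ) (ν ℓ : ℕ → ℕ) (y a : ℕ) (s z : ℕ → ℕ), Hyp M S R N ν ℓ →
    Ok R N ν ℓ y a s z → y + 1 < R → ν a + y + 1 < R →
    M * Lo R N ν s z (y + 1) + ℓ y ≤ M * ℓ y

def GoalG5 : Prop :=
  ∀ (M S R N : ℕ) (ν ℓ : ℕ → ℕ) (y a : ℕ) (s z : ℕ → ℕ), GoalG1 → Hyp M S R N ν ℓ →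
    Ok R N ν ℓ y a s z → y + 2 < R → R ≤ y + M + 1 →
    (R - 1 - y + 1).choose 2 * Lo R N ν s z (y + 1) +
      ∑ c ∈ (range a).filter (fun c => 0 < nv R (ν c) (s c) (z c) y),
        (R - 1 - y - nv R (ν c) (s c) (z c) y + 1).choose 2 ≤
      (R - 1 - y + 1).choose 2 * ℓ (y + 1) +
      ∑ c ∈ (range a).filter (fun c => y < z c ∧ z c ≠ R), (min R (s c + ν c) - z c) +
      S * (R - 1 - y + 1).choose 3

def GoalG6 : Prop :=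
  ∀ (M S R N : ℕ) (ν ℓ : ℕ → ℕ) (y a : ℕ) (s z : ℕ → ℕ), Hyp M S R N ν ℓ →
    Inv M S R N ν ℓ y a s z → y + 1 < R → R ≤ y + M + 1 →
    ∑ c ∈ (range a).filter (fun c => y < z c ∧ z c ≠ R), (min R (s c + ν c) - z c) ≤
      2 * (R - 1 - y) * (R - 1 - y + 2)

def GoalG7 : Prop :=
  ∀ (M S R N : ℕ) (ν ℓ : ℕ → ℕ) (y a : ℕ) (s z : ℕ → ℕ), Hyp M S R N ν ℓ →
    Inv M S R N ν ℓ y a s z → y + 1 < R → R ≤ y + M + 1 → R ≤ ν a + y + 1 →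
    ∀ v, 1 ≤ v → v + y + 1 < R →
      22 + S ≤ ((range a).filter (fun c => z c = R ∧ s c + ν c = y + v)).card

def GoalG8 : Prop :=
  ∀ (M S R N : ℕ) (ν ℓ : ℕ → ℕ) (y a : ℕ) (s z : ℕ → ℕ), Hyp M S R N ν ℓ →
    Inv M S R N ν ℓ y a s z → y + 2 < R →
    Lo R N ν s z (y + 1) + 3 * min (ν a) (R - 2 - y) ≤ ℓ (y + 1) + 1

def GoalG10 : Prop :=
  ∀ (M S R N : ℕ) (ν ℓ : ℕ → ℕ) (y a : ℕ) (s z : ℕ → ℕ), Hyp M S R N ν ℓ →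
    Inv M S R N ν ℓ y a s z → y + 2 < R →
    Lo R N ν s z (y + 1) + 3 * min (ν a) (R - 2 - y) ≤ ℓ (y + 1) + 1 →
    ∃ (a' : ℕ) (s' z' : ℕ → ℕ), Inv M S R N ν ℓ (y + 1) a' s' z'

def GoalG11 : Prop :=
  ∀ (M S R N : ℕ) (ν ℓ : ℕ → ℕ), Hyp M S R N ν ℓ →
    ∃ (a : ℕ) (s z : ℕ → ℕ), Inv M S R N ν ℓ 0 a s z

def GoalG : Prop :=
  ∀ (M S R N : ℕ) (ν ℓ : ℕ → ℕ), Hyp M S R N ν ℓ →
    ∃ s z : ℕ → ℕ, (∀ c < N, s c < R ∧ s c < z c ∧ z c ≤ R) ∧ ∀ y < R, Lo R N ν s z y = ℓ y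

end Pool.Agent.Helper18.SGW
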