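import Pool.Agent.Helper18.SGW.Goals

/-!
# SG-G4: the drop inequality
-/

set_option autoImplicit false

namespace Pool.Agent.Helper18.SGW.PG4

open Finset
open Pool.Agent.Helper18.SG (nv Lo ns nz GoalG1 GoalG9)
open Pool.Agent.Helper18.SGW

theorem drop_started (M R ν s z y : ℕ) (hν : ν ≤ M) (hs : s ≤ y) :
    M * nv R ν s z (y + 1) + nv R ν s z y ≤ M * nv R ν s z y := by
  have h1 : nv R ν s z (y + 1) = 0 ∨ nv R ν s z (y + 1) + 1 ≤ nv R ν s z y := by
    unfold nv
    rw [if_pos hs, if_pos (by omega)]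
    by_cases h : z ≤ y
    · rw [if_pos h, if_pos (by omega)]; omega
    · by_cases h' : z ≤ y + 1
      · rw [if_neg h, if_pos h']; omega
      · rw [if_neg h, if_neg h']; omega
  have h2 : nv R ν s z y ≤ M := by
    unfold nv
    rw [if_pos hs]
    omega
  have h3 : nv R ν s z (y + 1) = 0 ∧ nv R ν s z y = 0 ∨
      nv R ν s z (y + 1) + 1 ≤ nv R ν s z y := by
    rcases h1 with h | h
    · by_cases h0 : nv R ν s z y = 0
      · exact Or.inl ⟨h, h0⟩
      · right; omega
    · exact Or.inr h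
  rcases h3 with ⟨h, h'⟩ | h
  · rw [h, h']; simp
  · have h4 : M * (nv R ν s z (y + 1) + 1) ≤ M * nv R ν s z y := Nat.mul_le_mul_left M h
    rw [Nat.mul_add, Nat.mul_one] at h4
    omega

theorem drop_unstarted (R ν y : ℕ) (hν1 : 1 ≤ ν) (h : ν + y + 1 < R) :
    nv R ν (R - 1) R (y + 1) = 0 ∧ nv R ν (R - 1) R y = 0 := by
  constructor
  · unfold nv
    rw [if_neg (by omega)]
    split_ifs <;> omega
  · unfold nv
    rw [if_neg (by omega)]
    split_ifs <;> omega

theorem goalG4 : GoalG4 := by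
  intro M S R N ν ℓ y a s z H hok hyR hν
  have hpt : ∀ c ∈ range N, M * nv R (ν c) (s c) (z c) (y + 1) + nv R (ν c) (s c) (z c) y ≤
      M * nv R (ν c) (s c) (z c) y := by
    intro c _
    by_cases hc : a ≤ c
    · obtain ⟨h1, h2⟩ := hok.un c hc
      have h3 : ν c ≤ ν a := H.anti hc
      obtain ⟨h4, h5⟩ := drop_unstarted R (ν c) y (H.ν1 c) (by omega)
      rw [h1, h2, h4, h5]
      simp
    · exact drop_started M R (ν c) (s c) (z c) y (H.νM c) (hok.st c (by omega)).1
  have hsum := Finset.sum_le_sum hpt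
  rw [Finset.sum_add_distrib, ← Finset.mul_sum, ← Finset.mul_sum] at hsum
  have hs : M * Lo R N ν s z (y + 1) + Lo R N ν s z y ≤ M * Lo R N ν s z y := hsum
  have hle := hok.le
  have hM := H.M1
  obtain ⟨k, rfl⟩ : ∃ k, M = k + 1 := ⟨M - 1, by omega⟩
  have h5 : k * Lo R N ν s z y ≤ k * ℓ y := Nat.mul_le_mul_left k hle
  rw [Nat.add_mul k 1 (ℓ y), Nat.one_mul]
  rw [Nat.add_mul k 1 (Lo R N ν s z y), Nat.one_mul] at hs
  omega

end Pool.Agent.Helper18.SGW.PG4
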