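import Mathlib
import Pool.Agent.Helper18.SGW.Goals

set_option autoImplicit false

namespace Pool.Agent.Helper18.SGW.PG6

open Finset
open Pool.Agent.Helper18.SG (nv Lo ns nz GoalG1 GoalG9)
open Pool.Agent.Helper18.SGW

/-- Packet SG-G6: the pending thresholds. -/
theorem goalG6 : GoalG6 := by
  intro M S R N ν ℓ y a s z hH hI hy hR
  classical
  have hR1 := hH.R1
  have key : ∀ c ∈ (range a).filter (fun c => y < z c ∧ z c ≠ R),
      (min R (s c + ν c) - z c ≤ R - 1 - y) ∧
        s c ∈ Finset.Icc (y - 1 - (R - 1 - y)) y := by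
    intro c hc
    rw [mem_filter, mem_range] at hc
    obtain ⟨hca, hyz, hzR⟩ := hc
    obtain ⟨h1, h2, h3, h4⟩ := hI.st c hca
    obtain ⟨h5, h6⟩ := hI.hz c hca hzR
    have hνM := hH.νM c
    have hs0 : s c ≠ 0 := fun h => hzR (h4 h)
    have hg : min (ν c) (R - s c) ≤ ν c := min_le_left _ _
    have hmin : min R (s c + ν c) = s c + min (ν c) (R - s c) := by omega
    have hM1 := hH.M1
    by_cases hs2 : 2 ≤ s c
    · have h7 := h6 hs2
      rw [mem_Icc]
      omega
    · have hs1 : s c = 1 := by omega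
      rw [mem_Icc]
      omega
  have hcard : ((range a).filter (fun c => y < z c ∧ z c ≠ R)).card ≤ 2 * (R - 1 - y + 2) := by
    rw [card_eq_sum_card_fiberwise (f := s) (t := Finset.Icc (y - 1 - (R - 1 - y)) y)
      (fun c hc => (key c hc).2)]
    calc ∑ t ∈ Finset.Icc (y - 1 - (R - 1 - y)) y,
          (((range a).filter (fun c => y < z c ∧ z c ≠ R)).filter (fun c => s c = t)).card
        ≤ ∑ _t ∈ Finset.Icc (y - 1 - (R - 1 - y)) y, 2 := by
          refine sum_le_sum fun t _ => (card_le_card ?_).trans (hI.two t)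
          intro c hc
          simp only [mem_filter, mem_range] at hc ⊢
          exact ⟨hc.1.1, hc.2, hc.1.2.2⟩
      _ = (y + 1 - (y - 1 - (R - 1 - y))) * 2 := by
          rw [sum_const, Nat.card_Icc, smul_eq_mul]
      _ ≤ 2 * (R - 1 - y + 2) := by omega
  calc ∑ c ∈ (range a).filter (fun c => y < z c ∧ z c ≠ R), (min R (s c + ν c) - z c)
      ≤ ∑ _c ∈ (range a).filter (fun c => y < z c ∧ z c ≠ R), (R - 1 - y) :=
        sum_le_sum fun c hc => (key c hc).1
    _ = ((range a).filter (fun c => y < z c ∧ z c ≠ R)).card * (R - 1 - y) := by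
        rw [sum_const, smul_eq_mul]
    _ ≤ (2 * (R - 1 - y + 2)) * (R - 1 - y) := Nat.mul_le_mul_right _ hcard
    _ = 2 * (R - 1 - y) * (R - 1 - y + 2) := by ring

end Pool.Agent.Helper18.SGW.PG6
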