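import Mathlib
import Pool.Agent.Helper18.SGW.Goals

set_option autoImplicit false

namespace Pool.Agent.Helper18.SGW.PG8

open Finset
open Pool.Agent.Helper18.SG (nv Lo ns nz GoalG1 GoalG9)
open Pool.Agent.Helper18.SGW

lemma choose2 (w : ℕ) : 2 * (w + 1).choose 2 = w * (w + 1) := by
  induction w with
  | zero => simp
  | succ n ih =>
    have h : (n + 1 + 1).choose 2 = (n + 1).choose 1 + (n + 1).choose 2 := Nat.choose_succ_succ' _ _
    rw [h, Nat.choose_one_right]
    linarith

lemma choose3 (w : ℕ) : 6 * (w + 2).choose 3 = w * (w + 1) * (w + 2) := by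
  induction w with
  | zero => simp [Nat.choose]
  | succ n ih =>
    have h : (n + 2 + 1).choose 3 = (n + 2).choose 2 + (n + 2).choose 3 := Nat.choose_succ_succ' _ _
    have h2 := choose2 (n + 1)
    rw [show n + 1 + 2 = n + 2 + 1 from rfl, h]
    rw [show n + 1 + 1 = n + 2 from rfl] at h2
    nlinarith

/-- `∑_{v=1}^{w-1} C(w - v + 1, 2) = C(w + 1, 3)` -/
lemma sumC (w : ℕ) : ∑ v ∈ Ico 1 w, (w - v + 1).choose 2 = (w + 1).choose 3 := by
  rcases Nat.eq_zero_or_pos w with rfl | hw
  · simp [Nat.choose]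
  · have h1 : ∑ v ∈ Ico 1 w, (w - v + 1).choose 2 = ∑ j ∈ range w, (j + 1).choose 2 := by
      rw [Finset.range_eq_Ico, ← Finset.sum_Ioo_add_eq_sum_Ico hw]
      simp only [Nat.choose, add_zero]
      apply Finset.sum_bij' (fun v _ => w - v) (fun v _ => w - v)
      · intro v hv
        simp only [mem_Ico, mem_Ioo] at hv ⊢
        omega
      · intro v hv
        simp only [mem_Ico, mem_Ioo] at hv ⊢
        omega
      · intro v hv
        simp only [mem_Ico, mem_Ioo] at hv ⊢
        omega
      · intro v hv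
        simp only [mem_Ico, mem_Ioo] at hv ⊢
        omega
      · intro v hv
        rfl
    rw [h1]
    clear h1 hw
    induction w with
    | zero => simp [Nat.choose]
    | succ n ih =>
      rw [Finset.sum_range_succ, ih]
      have : (n + 1 + 1).choose 3 = (n + 1).choose 2 + (n + 1).choose 3 := Nat.choose_succ_succ' _ _
      omega

theorem goalG8 (g1 : GoalG1) (g4 : GoalG4) (g5 : GoalG5) (g6 : GoalG6) (g7 : GoalG7) : GoalG8 := by
  intro M S R N ν ℓ y a s z hyp inv hy
  by_cases hc : ν a + y + 1 < R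
  · have e4 := g4 M S R N ν ℓ y a s z hyp inv.toOk (by omega) hc
    have e0 := hyp.h0 y (by omega)
    have hM := hyp.M1
    have hν := hyp.νM a
    have e : M * (Lo R N ν s z (y + 1) + 3 * M) ≤ M * ℓ (y + 1) := by nlinarith
    have e' := Nat.le_of_mul_le_mul_left e hM
    have : min (ν a) (R - 2 - y) ≤ M := le_trans (min_le_left _ _) hν
    omega
  · obtain ⟨w, rfl⟩ : ∃ w, R = y + w + 1 := ⟨R - 1 - y, by omega⟩
    have hν := hyp.νM a
    have e5 := g5 M S (y + w + 1) N ν ℓ y a s z g1 hyp inv.toOk (by omega) (by omega)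
    have e6 := g6 M S (y + w + 1) N ν ℓ y a s z hyp inv (by omega) (by omega)
    have e7 := g7 M S (y + w + 1) N ν ℓ y a s z hyp inv (by omega) (by omega) (by omega)
    have hw1 : y + w + 1 - 1 - y = w := by omega
    have hw2 : y + w + 1 - 2 - y = w - 1 := by omega
    rw [hw1] at e5 e6
    rw [hw2, min_eq_right (by omega)]
    set T : ℕ → Finset ℕ := fun v =>
      (range a).filter (fun c => z c = y + w + 1 ∧ s c + ν c = y + v) with hT
    set F := (range a).filter (fun c => 0 < nv (y + w + 1) (ν c) (s c) (z c) y) with hF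
    have hnv : ∀ v, ∀ c ∈ T v, nv (y + w + 1) (ν c) (s c) (z c) y = v := by
      intro v c hcT
      simp only [hT, mem_filter, mem_range] at hcT
      obtain ⟨hca, hz, hs⟩ := hcT
      have hst := (inv.st c hca).1
      unfold nv
      rw [if_pos hst, if_neg (by omega)]
      omega
    have hD : (22 + S) * (w + 1).choose 3 ≤
        ∑ c ∈ F, (w - nv (y + w + 1) (ν c) (s c) (z c) y + 1).choose 2 := by
      have hdis : Set.PairwiseDisjoint (↑(Ico 1 w : Finset ℕ) : Set ℕ) T := by
        intro v1 _ v2 _ hne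
        refine Finset.disjoint_left.2 fun c h1 h2 => hne ?_
        rw [← hnv v1 c h1, ← hnv v2 c h2]
      have hsub : (Ico 1 w).biUnion T ⊆ F := by
        intro c hcm
        obtain ⟨v, hv, hcT⟩ := mem_biUnion.1 hcm
        have h := hnv v c hcT
        have hca : c ∈ range a := (mem_filter.1 hcT).1
        rw [hF, mem_filter]
        refine ⟨hca, ?_⟩
        rw [h]
        exact (mem_Ico.1 hv).1
      calc (22 + S) * (w + 1).choose 3 = ∑ v ∈ Ico 1 w, (22 + S) * (w - v + 1).choose 2 := by
            rw [← Finset.mul_sum, sumC]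
        _ ≤ ∑ v ∈ Ico 1 w, (T v).card * (w - v + 1).choose 2 := by
            apply Finset.sum_le_sum
            intro v hv
            obtain ⟨hv1, hv2⟩ := mem_Ico.1 hv
            exact Nat.mul_le_mul_right _ (e7 v hv1 (by omega))
        _ = ∑ v ∈ Ico 1 w, ∑ c ∈ T v,
              (w - nv (y + w + 1) (ν c) (s c) (z c) y + 1).choose 2 := by
            apply Finset.sum_congr rfl
            intro v _
            rw [Finset.sum_congr rfl (fun c hcT => by rw [hnv v c hcT]), Finset.sum_const,
              smul_eq_mul]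
        _ = ∑ c ∈ (Ico 1 w).biUnion T,
              (w - nv (y + w + 1) (ν c) (s c) (z c) y + 1).choose 2 :=
            (Finset.sum_biUnion hdis).symm
        _ ≤ _ := Finset.sum_le_sum_of_subset hsub
    obtain ⟨k, rfl⟩ : ∃ k, w = k + 2 := ⟨w - 2, by omega⟩
    have c2 := choose2 (k + 2)
    have c3 := choose3 (k + 1)
    rw [show k + 1 + 2 = k + 2 + 1 from rfl] at c3
    set T2 := (k + 2 + 1).choose 2
    set C3 := (k + 2 + 1).choose 3
    set L0 := Lo (y + (k + 2) + 1) N ν s z (y + 1)
    set L1 := ℓ (y + 1)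
    by_contra hcon
    push Not at hcon
    have hle : L1 ≤ L0 + (3 * k + 1) := by omega
    have hmul : T2 * L1 ≤ T2 * L0 + T2 * (3 * k + 1) := by
      rw [← Nat.mul_add]; exact Nat.mul_le_mul_left _ hle
    have key : 22 * C3 ≤ T2 * (3 * k + 1) + 2 * (k + 2) * (k + 2 + 2) := by
      have : T2 * L0 + (22 + S) * C3 ≤ T2 * L1 + 2 * (k + 2) * (k + 2 + 2) + S * C3 := by
        linarith
      nlinarith
    nlinarith
end Pool.Agent.Helper18.SGW.PG8
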