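import Mathlib
import Pool.Agent.Helper18.SGW.G2
import Pool.Agent.Helper18.SGW.G4
import Pool.Agent.Helper18.SGW.G5
import Pool.Agent.Helper18.SGW.G6
import Pool.Agent.Helper18.SGW.G7
import Pool.Agent.Helper18.SGW.G8
import Pool.Agent.Helper18.SGW.G10
import Pool.Agent.Helper18.SGW.G11
import Pool.Agent.Helper18.SGW.G
import Pool.Agent.Helper90.SG.G1
import Pool.Agent.Helper37.SG.G9
import Pool.Agent.Helper18.SG.Goals2

/-! The game with `2 M + 1 ≤ R`: assembly. -/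

set_option autoImplicit false

namespace Pool.Agent.Helper18.SGW

theorem g2 : GoalG2 := PG2.goalG2
theorem g8 : GoalG8 := PG8.goalG8 Pool.Agent.Helper90.SG.goalG1 PG4.goalG4 PG5.goalG5 PG6.goalG6
  PG7.goalG7
theorem g10 : GoalG10 := PG10.goalG10 Pool.Agent.Helper90.SG.goalG1 g2 PG4.goalG4
  Pool.Agent.Helper37.SG.goalG9
theorem g11 : GoalG11 := PG11.goalG11 Pool.Agent.Helper90.SG.goalG1 g2

theorem goalGW : Pool.Agent.Helper18.SG.GoalGW := by
  intro M S R N ν ℓ h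
  exact PG.goalG Pool.Agent.Helper90.SG.goalG1 g8 g10 g11 M S R N ν ℓ
    ⟨h.M1, h.R1, h.anti, h.ν1, h.νM, h.h0, h.h1, h.h2, h.tot⟩

end Pool.Agent.Helper18.SGW
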